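import Pool.Agent.Helper6.LPB.St

/-!
# Project LPB, module AVG: the mean value of the density
-/

set_option autoImplicit false

noncomputable section

namespace Pool.Agent.Helper74.LPB

open Finset
open Pool.Agent.Helper60.LZ (js bp bl StBAD)
open Pool.Agent.Helper98.LM (QQ)
open Pool.Agent.Helper6.LP Pool.Agent.Helper6.LPB

private theorem VV_nonneg (p w P a y : ℕ) : 0 ≤ VV p w P a y := by
  unfold VV
  refine prod_nonneg (fun l _ => ?_)
  have h1 : ((SS P a y l).card : ℝ) ≤ l := by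
    have h := card_filter_le (range l) (fun s : ℕ => (l : ℤ) ∣ ff ((a : ℤ) + P * s) y)
    rw [card_range] at h
    unfold SS
    exact_mod_cast h
  have h2 : ((SS P a y l).card : ℝ) / l ≤ 1 := div_le_one_of_le₀ h1 (Nat.cast_nonneg l)
  linarith

private theorem root (B K : ℕ) (hB : 1 ≤ B) : ∃ z : ℕ, z ^ B ≤ K ∧ K < (z + 1) ^ B := by
  classical
  have h : ∃ k : ℕ, K < (k + 1) ^ B := ⟨K, by
    have := Nat.le_self_pow (by omega : B ≠ 0) (K + 1)
    omega⟩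
  refine ⟨Nat.find h, ?_, Nat.find_spec h⟩
  by_cases h0 : Nat.find h = 0
  · rw [h0, zero_pow (by omega)]
    exact Nat.zero_le _
  · obtain ⟨m, hm⟩ := Nat.exists_eq_succ_of_ne_zero h0
    have h1 := Nat.find_min h (m := m) (by omega)
    rw [hm]
    simpa using h1

open Classical in
private theorem cnt {C : ℝ} (hB : ∀ K j0 J : ℕ, 4 ≤ K → 256 * K ^ 4 ≤ 2 ^ j0 → j0 ≤ J →
    (((Icc 4 K).filter (fun t => 1 < ∑ j ∈ Ico j0 J, |bl t j|)).card : ℝ) ≤
      C * (J * Real.log J * Real.log K)) (K j0 J : ℕ) (hK : 4 ≤ K) (h1 : 256 * K ^ 4 ≤ 2 ^ j0)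
    (h2 : j0 ≤ J) :
    (((Icc 5 K).filter (fun y => 1 < ∑ j ∈ Ico j0 J, |bl (y - 2) j|)).card : ℝ) ≤
      1 + C * (J * Real.log J * Real.log K) := by
  have h3 := hB K j0 J hK h1 h2
  have h4 : (Icc 5 K).filter (fun y => 1 < ∑ j ∈ Ico j0 J, |bl (y - 2) j|) ⊆
      insert 5 (((Icc 4 K).filter (fun t => 1 < ∑ j ∈ Ico j0 J, |bl t j|)).image (fun t => t + 2)) := by
    intro y hy
    rw [mem_filter, mem_Icc] at hy
    obtain ⟨⟨y1, y2⟩, y3⟩ := hy
    rw [mem_insert, mem_image]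
    by_cases h5 : y = 5
    · exact Or.inl h5
    · refine Or.inr ⟨y - 2, ?_, by omega⟩
      rw [mem_filter, mem_Icc]
      exact ⟨⟨by omega, by omega⟩, y3⟩
  have h5 := (card_le_card h4).trans (card_insert_le _ _)
  have h6 : (((Icc 4 K).filter (fun t => 1 < ∑ j ∈ Ico j0 J, |bl t j|)).image
      (fun t => t + 2)).card ≤ ((Icc 4 K).filter (fun t => 1 < ∑ j ∈ Ico j0 J, |bl t j|)).card :=
    card_image_le
  have h7 : (((Icc 5 K).filter (fun y => 1 < ∑ j ∈ Ico j0 J, |bl (y - 2) j|)).card : ℝ) ≤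
      (((Icc 4 K).filter (fun t => 1 < ∑ j ∈ Ico j0 J, |bl t j|)).card : ℝ) + 1 := by
    exact_mod_cast h5.trans (Nat.add_le_add_right h6 1)
  linarith

private theorem large (M c : ℝ) (hM : 0 < M) (hc : 0 < c) : ∃ s₀ : ℕ, ∀ s : ℕ, s₀ ≤ s →
    2 ≤ s ∧ 512 * 4 ^ 12 * s ^ 24 ≤ 2 ^ s ∧ M * Real.log (2 * s) ^ 4 ≤ c * s := by
  have t1 : ∀ᶠ s : ℕ in Filter.atTop, 512 * 4 ^ 12 * s ^ 24 ≤ 2 ^ s := by
    have h1 := tendsto_pow_const_div_const_pow_of_one_lt 24 (show (1 : ℝ) < 2 by norm_num)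
    have h2 : (0 : ℝ) < 1 / (512 * 4 ^ 12) := by positivity
    filter_upwards [h1.eventually_lt_const h2] with s hs
    rw [div_lt_div_iff₀ (by positivity) (by positivity)] at hs
    have h4 : (512 * 4 ^ 12 * (s : ℝ) ^ 24) ≤ 2 ^ s := by linarith
    exact_mod_cast h4
  have t2 : ∀ᶠ s : ℕ in Filter.atTop, M * Real.log (2 * s) ^ 4 ≤ c * s := by
    have h0 : Filter.Tendsto (fun s : ℕ => (2 : ℝ) * s) Filter.atTop Filter.atTop :=
      Filter.Tendsto.const_mul_atTop (by norm_num) tendsto_natCast_atTop_atTop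
    have h1 := (Real.isLittleO_pow_log_id_atTop (n := 4)).comp_tendsto h0
    have hD : 0 < c / (2 * M) := by positivity
    have h2 := h1.def hD
    filter_upwards [h2, Filter.eventually_ge_atTop 1] with s hs hs1
    have hs' : (1 : ℝ) ≤ s := by exact_mod_cast hs1
    simp only [Function.comp_apply, id, Real.norm_eq_abs] at hs
    rw [abs_of_nonneg (by positivity), abs_of_nonneg (by linarith)] at hs
    calc M * Real.log (2 * s) ^ 4 ≤ M * (c / (2 * M) * (2 * s)) :=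
          mul_le_mul_of_nonneg_left hs hM.le
      _ = c * s := by
          field_simp
  obtain ⟨s₀, h⟩ := Filter.eventually_atTop.1 ((Filter.eventually_ge_atTop 2).and (t1.and t2))
  exact ⟨s₀, h⟩

theorem hAVG (hA : StAVS) (hS : StSPB) (hB : StBAD) : StAVG := by
  classical
  obtain ⟨CA, hCA, B, hB1, hA⟩ := hA
  obtain ⟨CS, hCS, z₀, hz₀, hS⟩ := hS B hB1
  obtain ⟨CB, hCB, hB⟩ := hB
  have he : 0 < Real.exp 1 := Real.exp_pos 1
  have hCS0 : 0 < CS := by linarith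
  have hCA0 : 0 < CA := by linarith
  refine ⟨CS * Real.exp 1 * CA + 1, by
    have : 0 < CS * Real.exp 1 * CA := by positivity
    linarith, ?_⟩
  intro c hc
  obtain ⟨M, hM⟩ : ∃ M : ℝ, M = CS * (36 * (1 + 6 * CB)) +
    CS * Real.exp 1 * (36 * (1 + 12 * CB)) := ⟨_, rfl⟩
  have hMpos : 0 < M := by rw [hM]; positivity
  obtain ⟨s₀, hs₀⟩ := large M c hMpos hc
  refine ⟨max (s₀ ^ 2) (max ⌈c⌉₊ (z₀ ^ B)), ?_⟩
  intro I K hI hIK hKc
  obtain ⟨s, hs⟩ : ∃ s : ℕ, s = Nat.sqrt I := ⟨_, rfl⟩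
  have hsI : s ^ 2 ≤ I := by rw [hs]; exact Nat.sqrt_le' I
  have hIs : I < (s + 1) ^ 2 := by rw [hs]; exact Nat.lt_succ_sqrt' I
  have hss : s₀ ≤ s := by
    rw [hs]
    exact Nat.le_sqrt'.2 ((le_max_left _ _).trans hI)
  obtain ⟨h2s, hpow, hlog⟩ := hs₀ s hss
  have hI4 : I ≤ 4 * s ^ 2 := by nlinarith
  have hIc : c ≤ I := by
    have h1 : ⌈c⌉₊ ≤ I := (le_max_left _ _).trans ((le_max_right _ _).trans hI)
    exact (Nat.le_ceil c).trans (by exact_mod_cast h1)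
  have hzB : z₀ ^ B ≤ I := (le_max_right _ _).trans ((le_max_right _ _).trans hI)
  obtain ⟨z, hz1, hz2⟩ := root B K hB1
  have hz0z : z₀ ≤ z := by
    by_contra hcon
    have h1 : (z + 1) ^ B ≤ z₀ ^ B := Nat.pow_le_pow_left (by omega) B
    omega
  have hIr : (0 : ℝ) < I := by
    have : 0 < I := by nlinarith
    exact_mod_cast this
  have hK3 : (K : ℝ) ≤ (I : ℝ) ^ 3 := by
    calc (K : ℝ) ≤ c * (I : ℝ) ^ 2 := hKc
      _ ≤ I * (I : ℝ) ^ 2 := mul_le_mul_of_nonneg_right hIc (by positivity)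
      _ = (I : ℝ) ^ 3 := by ring
  have hK3' : K ≤ I ^ 3 := by exact_mod_cast hK3
  have hz40 : 40 ≤ z := hz₀.trans hz0z
  have hzK : z ≤ K := (Nat.le_self_pow (by omega : B ≠ 0) z).trans hz1
  have hK40 : 40 ≤ K := hz40.trans hzK
  -- the level
  obtain ⟨j0, hj0⟩ : ∃ j0 : ℕ, j0 = Nat.clog 2 (256 * K ^ 4) := ⟨_, rfl⟩
  have h256 : 1 < 256 * K ^ 4 := by
    have : 1 ≤ K ^ 4 := Nat.one_le_pow _ _ (by omega)
    omega
  have hj0a : 256 * K ^ 4 ≤ 2 ^ j0 := by rw [hj0]; exact Nat.le_pow_clog (by norm_num) _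
  have hj01 : 1 ≤ j0 := by
    rw [hj0]
    exact Nat.clog_pos (by norm_num) (by omega)
  have hj0b : 2 ^ j0 ≤ 512 * K ^ 4 := by
    have h1 : 2 ^ (j0 - 1) < 256 * K ^ 4 := by
      rw [hj0]
      exact Nat.pow_pred_clog_lt_self (by norm_num) h256
    have h3 : 2 ^ j0 = 2 * 2 ^ (j0 - 1) := by
      rw [← pow_succ']
      congr 1
      omega
    omega
  have hj0s : j0 ≤ s := by
    have h1 : 2 ^ j0 ≤ 2 ^ s := by
      calc 2 ^ j0 ≤ 512 * K ^ 4 := hj0b
        _ ≤ 512 * ((4 * s ^ 2) ^ 3) ^ 4 :=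
            Nat.mul_le_mul_left _ (Nat.pow_le_pow_left (hK3'.trans (Nat.pow_le_pow_left hI4 3)) 4)
        _ = 512 * 4 ^ 12 * s ^ 24 := by ring
        _ ≤ 2 ^ s := hpow
    exact (Nat.pow_le_pow_iff_right (by norm_num)).1 h1
  have hsI' : s ≤ I := (Nat.le_self_pow (by norm_num) s).trans hsI
  -- logarithms
  obtain ⟨L, hL⟩ : ∃ L : ℝ, L = Real.log (2 * s) := ⟨_, rfl⟩
  rw [← hL] at hlog
  have hs2 : (2 : ℝ) ≤ s := by exact_mod_cast h2s
  have hs0 : (0 : ℝ) < s := by linarith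
  have hL1 : 1 ≤ L := by
    rw [hL, Real.le_log_iff_exp_le (by linarith)]
    have := Real.exp_one_lt_d9
    linarith
  have hI4r : (I : ℝ) ≤ (2 * s) ^ 2 := by
    have h1 : (I : ℝ) ≤ 4 * (s : ℝ) ^ 2 := by exact_mod_cast hI4
    linarith
  have hlogI : Real.log I ≤ 2 * L := by
    have h1 := Real.log_le_log hIr hI4r
    rw [Real.log_pow, ← hL] at h1
    exact_mod_cast h1
  have hKr : (40 : ℝ) ≤ K := by exact_mod_cast hK40
  have hlogK : Real.log K ≤ 6 * L := by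
    have h1 := Real.log_le_log (by linarith) hK3
    rw [Real.log_pow] at h1
    push_cast at h1
    linarith
  have hzr : (40 : ℝ) ≤ z := by exact_mod_cast hz40
  have hlz : 0 < Real.log z := Real.log_pos (by linarith)
  have hlogz : Real.log z ≤ 6 * L :=
    (Real.log_le_log (by linarith) (by exact_mod_cast hzK)).trans hlogK
  have hlogs : Real.log s ≤ L := by
    rw [hL]
    exact Real.log_le_log hs0 (by linarith)
  have hlogs0 : 0 ≤ Real.log s := Real.log_nonneg (by linarith)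
  have hI1 : (1 : ℝ) ≤ I := by
    have : 1 ≤ I := by nlinarith
    exact_mod_cast this
  have hlogI0 : 0 ≤ Real.log I := Real.log_nonneg hI1
  have hlogK0 : 0 ≤ Real.log K := Real.log_nonneg (by linarith)
  have hL2 : 1 ≤ L ^ 2 := one_le_pow₀ hL1
  -- the numbers of the bad `y`
  have n1 := cnt hB K j0 s (by omega) hj0a hj0s
  have n2 := cnt hB K j0 I (by omega) hj0a (hj0s.trans hsI')
  obtain ⟨c1, hc1⟩ : ∃ c1 : ℝ, c1 =
    (((Icc 5 K).filter (fun y => 1 < ∑ j ∈ Ico j0 s, |bl (y - 2) j|)).card : ℝ) := ⟨_, rfl⟩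
  obtain ⟨c2, hc2⟩ : ∃ c2 : ℝ, c2 =
    (((Icc 5 K).filter (fun y => 1 < ∑ j ∈ Ico j0 I, |bl (y - 2) j|)).card : ℝ) := ⟨_, rfl⟩
  have hc10 : 0 ≤ c1 := by rw [hc1]; exact Nat.cast_nonneg _
  have hc20 : 0 ≤ c2 := by rw [hc2]; exact Nat.cast_nonneg _
  rw [← hc1] at n1
  rw [← hc2] at n2
  have n1' : c1 ≤ (1 + 6 * CB) * (s * L ^ 2) := by
    have h1 : (s : ℝ) * Real.log s * Real.log K ≤ s * L * (6 * L) := by gcongr
    have h2 : CB * (s * Real.log s * Real.log K) ≤ CB * (s * L * (6 * L)) :=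
      mul_le_mul_of_nonneg_left h1 hCB.le
    have h3 : (1 : ℝ) ≤ s * L ^ 2 := by nlinarith
    have h4 : (1 + 6 * CB) * (s * L ^ 2) = s * L ^ 2 + CB * (s * L * (6 * L)) := by ring
    rw [h4]
    linarith
  have n2' : c2 ≤ (1 + 12 * CB) * (I * L ^ 2) := by
    have h1 : (I : ℝ) * Real.log I * Real.log K ≤ I * (2 * L) * (6 * L) := by gcongr
    have h2 : CB * (I * Real.log I * Real.log K) ≤ CB * (I * (2 * L) * (6 * L)) :=
      mul_le_mul_of_nonneg_left h1 hCB.le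
    have h3 : (1 : ℝ) ≤ I * L ^ 2 := by nlinarith
    have h4 : (1 + 12 * CB) * (I * L ^ 2) = I * L ^ 2 + CB * (I * (2 * L) * (6 * L)) := by ring
    rw [h4]
    linarith
  -- the three constants
  obtain ⟨a, ha⟩ : ∃ a : ℝ, a = CS * ((Real.log z / I) ^ 2 * Real.exp 1) := ⟨_, rfl⟩
  obtain ⟨b, hb⟩ : ∃ b : ℝ, b = CS * ((Real.log z / I) ^ 2 * (I / j0)) := ⟨_, rfl⟩
  obtain ⟨d, hd⟩ : ∃ d : ℝ, d = CS * ((Real.log z / I) ^ 2 * (I / s) * Real.exp 1) := ⟨_, rfl⟩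
  have ha0 : 0 ≤ a := by rw [ha]; positivity
  have hb0 : 0 ≤ b := by rw [hb]; positivity
  have hd0 : 0 ≤ d := by rw [hd]; positivity
  have hpt : ∀ y ∈ Icc 5 K, VV 32 (2 ^ I - 1) 1 0 y ≤ a * VV 32 z 1 0 y +
      (if 1 < ∑ j ∈ Ico j0 s, |bl (y - 2) j| then b else 0) +
      (if 1 < ∑ j ∈ Ico j0 I, |bl (y - 2) j| then d else 0) := by
    intro y hy
    rw [mem_Icc] at hy
    have hV := VV_nonneg 32 z 1 0 y
    have hav : 0 ≤ a * VV 32 z 1 0 y := mul_nonneg ha0 hV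
    have e1 := hS z K j0 s I y hz0z hz1 hz2 hj0a hj0b hj0s hsI' hy.1 hy.2
    have e2 := hS z K j0 j0 I y hz0z hz1 hz2 hj0a hj0b le_rfl (hj0s.trans hsI') hy.1 hy.2
    by_cases g1 : 1 < ∑ j ∈ Ico j0 s, |bl (y - 2) j|
    · rw [if_pos g1]
      have h1 := e2.2
      rw [Ico_self, sum_empty, Real.exp_zero, mul_one] at h1
      have h2 : (0 : ℝ) ≤ (if 1 < ∑ j ∈ Ico j0 I, |bl (y - 2) j| then d else 0) := by
        split_ifs
        · exact hd0
        · exact le_rfl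
      rw [← hb] at h1
      linarith
    · rw [if_neg g1]
      by_cases g2 : 1 < ∑ j ∈ Ico j0 I, |bl (y - 2) j|
      · rw [if_pos g2]
        have h1 := e1.2
        have h3 : Real.exp (∑ j ∈ Ico j0 s, |bl (y - 2) j|) ≤ Real.exp 1 :=
          Real.exp_le_exp.2 (not_lt.1 g1)
        have h4 : CS * ((Real.log z / I) ^ 2 * (I / s) * Real.exp (∑ j ∈ Ico j0 s, |bl (y - 2) j|)) ≤
            d := by
          rw [hd]
          exact mul_le_mul_of_nonneg_left (mul_le_mul_of_nonneg_left h3 (by positivity)) hCS0.le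
        linarith
      · rw [if_neg g2]
        have h1 := e1.1
        have h3 : Real.exp (∑ j ∈ Ico j0 I, |bl (y - 2) j|) ≤ Real.exp 1 :=
          Real.exp_le_exp.2 (not_lt.1 g2)
        have h4 : CS * (VV 32 z 1 0 y * (Real.log z / I) ^ 2 *
            Real.exp (∑ j ∈ Ico j0 I, |bl (y - 2) j|)) ≤ a * VV 32 z 1 0 y := by
          have h5 : a * VV 32 z 1 0 y = CS * (VV 32 z 1 0 y * (Real.log z / I) ^ 2 * Real.exp 1) := by
            rw [ha]
            ring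
          rw [h5]
          exact mul_le_mul_of_nonneg_left (mul_le_mul_of_nonneg_left h3 (by positivity)) hCS0.le
        linarith
  have hsum : ∑ y ∈ Icc 5 K, VV 32 (2 ^ I - 1) 1 0 y ≤
      a * ∑ y ∈ Icc 5 K, VV 32 z 1 0 y + c1 * b + c2 * d := by
    refine (sum_le_sum hpt).trans (le_of_eq ?_)
    rw [sum_add_distrib, sum_add_distrib, ← mul_sum, ← sum_filter, ← sum_filter, sum_const,
      sum_const, nsmul_eq_mul, nsmul_eq_mul, hc1, hc2]
  have hA' := hA z K (by omega) hz1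
  have p1 : a * ∑ y ∈ Icc 5 K, VV 32 z 1 0 y ≤ CS * Real.exp 1 * CA * c := by
    calc a * ∑ y ∈ Icc 5 K, VV 32 z 1 0 y ≤ a * (CA * (K / Real.log z ^ 2)) :=
          mul_le_mul_of_nonneg_left hA' ha0
      _ = CS * Real.exp 1 * CA * (K / (I : ℝ) ^ 2) := by
          rw [ha]
          field_simp
      _ ≤ CS * Real.exp 1 * CA * c := by
          refine mul_le_mul_of_nonneg_left ?_ (by positivity)
          rw [div_le_iff₀ (by positivity)]
          exact hKc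
  have hj0r : (1 : ℝ) ≤ j0 := by exact_mod_cast hj01
  have hsIr : (s : ℝ) ^ 2 ≤ I := by exact_mod_cast hsI
  have q0 : (Real.log z / I) ^ 2 ≤ (6 * L / I) ^ 2 := by gcongr
  have q1 : b ≤ CS * (36 * L ^ 2 / I) := by
    rw [hb]
    refine mul_le_mul_of_nonneg_left ?_ hCS0.le
    calc (Real.log z / I) ^ 2 * (I / j0) ≤ (6 * L / I) ^ 2 * (I / 1) := by gcongr
      _ = 36 * L ^ 2 / I := by
          field_simp
          ring
  have q2 : d ≤ CS * (36 * L ^ 2 / (I * s) * Real.exp 1) := by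
    rw [hd]
    refine mul_le_mul_of_nonneg_left ?_ hCS0.le
    refine mul_le_mul_of_nonneg_right ?_ he.le
    calc (Real.log z / I) ^ 2 * (I / s) ≤ (6 * L / I) ^ 2 * (I / s) := by gcongr
      _ = 36 * L ^ 2 / (I * s) := by
          field_simp
          ring
  have p2 : c1 * b ≤ CS * (36 * (1 + 6 * CB)) * (L ^ 4 / s) := by
    calc c1 * b ≤ (1 + 6 * CB) * (s * L ^ 2) * (CS * (36 * L ^ 2 / I)) :=
          mul_le_mul n1' q1 hb0 (by positivity)
      _ = CS * (36 * (1 + 6 * CB)) * (L ^ 4 * (s / I)) := by ring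
      _ ≤ CS * (36 * (1 + 6 * CB)) * (L ^ 4 * (1 / s)) := by
          refine mul_le_mul_of_nonneg_left ?_ (by positivity)
          refine mul_le_mul_of_nonneg_left ?_ (by positivity)
          rw [div_le_div_iff₀ hIr hs0]
          nlinarith
      _ = CS * (36 * (1 + 6 * CB)) * (L ^ 4 / s) := by ring
  have p3 : c2 * d ≤ CS * Real.exp 1 * (36 * (1 + 12 * CB)) * (L ^ 4 / s) := by
    calc c2 * d ≤ (1 + 12 * CB) * (I * L ^ 2) * (CS * (36 * L ^ 2 / (I * s) * Real.exp 1)) :=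
          mul_le_mul n2' q2 hd0 (by positivity)
      _ = CS * Real.exp 1 * (36 * (1 + 12 * CB)) * (L ^ 4 / s) := by
          field_simp
  have p4 : M * (L ^ 4 / s) ≤ c := by
    have h1 : M * (L ^ 4 / s) = M * L ^ 4 / s := by ring
    rw [h1, div_le_iff₀ hs0]
    exact hlog
  have p5 : M * (L ^ 4 / s) = CS * (36 * (1 + 6 * CB)) * (L ^ 4 / s) +
      CS * Real.exp 1 * (36 * (1 + 12 * CB)) * (L ^ 4 / s) := by
    rw [hM]
    ring
  have p6 : (CS * Real.exp 1 * CA + 1) * c = CS * Real.exp 1 * CA * c + c := by ring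
  rw [p6]
  linarith

end Pool.Agent.Helper74.LPB
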